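import Pool.Agent.H95.GX.Stm

/-! # GX-AVG: averaging over the nonzero classes modulo `p` -/

set_option autoImplicit false

open Filter
open scoped Topology

namespace Pool.Agent.H95.GX.AVG

open Pool.Agent.H13.GG (Bd)

/-- the classes of a bad `a` -/
lemma bd_iff {p j a : ℕ} (hp3 : 3 ≤ p) (hpj : ¬ p ∣ j) (ha1 : 1 ≤ a) (ha : a < p) :
    Bd a p j ↔ a = j % p ∨ a = p - j % p := by
  have hj : 0 < j % p := Nat.pos_of_ne_zero fun h => hpj (Nat.dvd_of_mod_eq_zero h)
  have hj2 : j % p < p := Nat.mod_lt _ (by omega)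
  have h1 : j % p = a % p ↔ a = j % p := by
    rw [Nat.mod_eq_of_lt ha]
    exact eq_comm
  have h2 : p ∣ a + j ↔ a = p - j % p := by
    rw [Nat.dvd_iff_mod_eq_zero, Nat.add_mod, Nat.mod_eq_of_lt ha]
    constructor
    · intro h
      have h3 : p ∣ a + j % p := Nat.dvd_of_mod_eq_zero h
      obtain ⟨c, hc⟩ := h3
      have h4 : c = 1 := by
        have h5 : 0 < c := by
          rcases Nat.eq_zero_or_pos c with h6 | h6
          · subst h6
            omega
          · exact h6
        have h6 : c < 2 := by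
          by_contra hcon
          have h7 : p * 2 ≤ p * c := Nat.mul_le_mul_left p (by omega)
          omega
        omega
      subst h4
      omega
    · intro h
      subst h
      have h3 : p - j % p + j % p = p := by omega
      rw [h3, Nat.mod_self]
  unfold Bd
  rw [h1, h2]
  tauto

open Classical in
lemma count_bad {p j : ℕ} (hp : p.Prime) (hp3 : 3 ≤ p) :
    ((Finset.Ico 1 p).filter (fun a => Bd a p j)).card = if ¬ p ∣ j then 2 else 0 := by
  by_cases hpj : p ∣ j
  · rw [if_neg (not_not.2 hpj), Finset.card_eq_zero, Finset.filter_eq_empty_iff]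
    intro a ha
    rw [Finset.mem_Ico] at ha
    have hj : j % p = 0 := Nat.mod_eq_zero_of_dvd hpj
    unfold Bd
    rw [hj, Nat.mod_eq_of_lt ha.2]
    rintro (h | h)
    all_goals first
      | omega
      | (have h3 : p ∣ a := (Nat.dvd_add_left hpj).1 h
         have := Nat.le_of_dvd (by omega) h3
         omega)
  · rw [if_pos hpj]
    have hj : 0 < j % p := Nat.pos_of_ne_zero fun h => hpj (Nat.dvd_of_mod_eq_zero h)
    have hj2 : j % p < p := Nat.mod_lt _ (by omega)
    have hodd : Odd p := hp.odd_of_ne_two (by omega)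
    have hne : j % p ≠ p - j % p := by
      intro h
      obtain ⟨k, hk⟩ := hodd
      omega
    have hset : (Finset.Ico 1 p).filter (fun a => Bd a p j) = {j % p, p - j % p} := by
      ext a
      simp only [Finset.mem_filter, Finset.mem_Ico, Finset.mem_insert, Finset.mem_singleton]
      constructor
      · rintro ⟨⟨h1, h2⟩, h3⟩
        exact (bd_iff hp3 hpj h1 h2).1 h3
      · intro h
        have h1 : 1 ≤ a ∧ a < p := by
          rcases h with h | h <;> omega
        exact ⟨h1, (bd_iff hp3 hpj h1.1 h1.2).2 h⟩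
    rw [hset, Finset.card_pair hne]

open Classical in
lemma dbl {p : ℕ} (hp : p.Prime) (hp3 : 3 ≤ p) (S : Finset ℕ) :
    ∑ a ∈ Finset.Ico 1 p, (S.filter (fun j => Bd a p j)).card = 2 * (S.filter (fun j => ¬ p ∣ j)).card := by
  have h1 : ∑ a ∈ Finset.Ico 1 p, (S.filter (fun j => Bd a p j)).card =
      ∑ j ∈ S, ((Finset.Ico 1 p).filter (fun a => Bd a p j)).card := by
    simp only [Finset.card_filter]
    exact Finset.sum_comm
  rw [h1, Finset.sum_congr rfl (fun j _ => count_bad hp hp3), Finset.card_filter, Finset.mul_sum]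
  refine Finset.sum_congr rfl fun j _ => ?_
  split_ifs <;> rfl

open Classical in
theorem main : S_AVG := by
  intro p hp hp3 S
  have hp1 : (0 : ℝ) < (p : ℝ) - 1 := by
    have : (3 : ℝ) ≤ p := by exact_mod_cast hp3
    linarith
  have hne : (Finset.Ico 1 p).Nonempty := ⟨1, Finset.mem_Ico.2 ⟨le_rfl, by omega⟩⟩
  have hcard : ((Finset.Ico 1 p).card : ℝ) = (p : ℝ) - 1 := by
    rw [Nat.card_Ico, Nat.cast_sub (by omega)]
    norm_num
  have hd : ∑ a ∈ Finset.Ico 1 p, ((S.filter (fun j => Bd a p j)).card : ℝ) =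
      2 * ((S.filter (fun j => ¬ p ∣ j)).card : ℝ) := by
    exact_mod_cast dbl hp hp3 S
  have hsplit : ∀ a : ℕ, ((S.filter (fun j => ¬ Bd a p j)).card : ℝ) =
      S.card - ((S.filter (fun j => Bd a p j)).card : ℝ) := by
    intro a
    have := Finset.card_filter_add_card_filter_not (s := S) (fun j => Bd a p j)
    have h2 : ((S.filter (fun j => Bd a p j)).card : ℝ) + ((S.filter (fun j => ¬ Bd a p j)).card : ℝ) =
        S.card := by exact_mod_cast this
    linarith
  have havg : ∑ _a ∈ Finset.Ico 1 p, (2 / ((p : ℝ) - 1) * ((S.filter (fun j => ¬ p ∣ j)).card : ℝ)) =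
      2 * ((S.filter (fun j => ¬ p ∣ j)).card : ℝ) := by
    rw [Finset.sum_const, nsmul_eq_mul, hcard]
    field_simp
  constructor
  · obtain ⟨a, ha, h⟩ := Finset.exists_le_of_sum_le hne (havg.trans hd.symm).le
    rw [Finset.mem_Ico] at ha
    refine ⟨a, ha.1, ha.2, ?_⟩
    rw [hsplit]
    linarith
  · obtain ⟨a, ha, h⟩ := Finset.exists_le_of_sum_le hne (hd.trans havg.symm).le
    rw [Finset.mem_Ico] at ha
    refine ⟨a, ha.1, ha.2, ?_⟩
    rw [hsplit]
    have h1 : ((S.filter (fun j => ¬ p ∣ j)).card : ℝ) ≤ S.card := by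
      exact_mod_cast Finset.card_filter_le _ _
    have h2 : 2 / ((p : ℝ) - 1) * ((S.filter (fun j => ¬ p ∣ j)).card : ℝ) ≤ 2 / ((p : ℝ) - 1) * S.card :=
      mul_le_mul_of_nonneg_left h1 (by positivity)
    linarith

end Pool.Agent.H95.GX.AVG
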