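import Pool.Agent.H95.GX.Stm
import Pool.Agent.H50.BF.MMB

/-!
# Project GX: the extremal densities
-/

set_option autoImplicit false

open Filter
open scoped Topology

namespace Pool.Agent.H95.GX.EXT

open Pool.Agent.H50.BF (MM S_MERT MM_pos MM_mono one_le_MM)
open Pool.Agent.H13.GG (Bd sg nu PV SS EE UW lo3 hi3)
open Pool.Agent.H95.GG (ru S_ROU)
open Pool.Agent.R529.BU (om)

lemma vtend {u : ℝ} (hu : 3 < u) :
    Tendsto (fun w : ℕ => ⌊(w : ℝ) ^ (3 / u)⌋₊) atTop atTop := by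
  have h1 : 0 < 3 / u := by positivity
  exact tendsto_nat_floor_atTop.comp ((tendsto_rpow_atTop h1).comp tendsto_natCast_atTop_atTop)

lemma ev (mert : S_MERT) {u : ℝ} (hu : 3 < u) {δ : ℝ} (hδ : 0 < δ) : ∀ᶠ w : ℕ in atTop,
    5 ≤ ⌊(w : ℝ) ^ (3 / u)⌋₊ ∧ ⌊(w : ℝ) ^ (3 / u)⌋₊ ≤ w ∧
      8 / (⌊(w : ℝ) ^ (3 / u)⌋₊ : ℝ) * MM w ^ 2 ≤ δ ∧ 4 / (⌊(w : ℝ) ^ (3 / u)⌋₊ : ℝ) ≤ δ ∧
      MM ⌊(w : ℝ) ^ (3 / u)⌋₊ ≤ (w : ℝ) ^ 3 := by
  have hu0 : 0 < 3 / u := by positivity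
  have hu1 : 3 / u < 1 := by rw [div_lt_one (by linarith)]; exact hu
  obtain ⟨K, hK⟩ : ∃ K : ℝ, K = Real.exp Real.eulerMascheroniConstant + 1 := ⟨_, rfl⟩
  have hK0 : 1 < K := by rw [hK]; linarith [Real.exp_pos Real.eulerMascheroniConstant]
  have hm : Tendsto (fun N : ℕ => MM N / Real.log N) atTop
      (𝓝 (Real.exp Real.eulerMascheroniConstant)) := mert
  have hlog : Tendsto (fun w : ℕ => Real.log (w : ℝ)) atTop atTop :=
    Real.tendsto_log_atTop.comp tendsto_natCast_atTop_atTop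
  have hlo : Tendsto (fun w : ℕ => Real.log (w : ℝ) ^ (2 : ℝ) / (w : ℝ) ^ (3 / u)) atTop (𝓝 0) :=
    (isLittleO_log_rpow_rpow_atTop 2 hu0).tendsto_div_nhds_zero.comp tendsto_natCast_atTop_atTop
  have hv4 : ∀ᶠ w : ℕ in atTop, 4 / (⌊(w : ℝ) ^ (3 / u)⌋₊ : ℝ) ≤ δ := by
    have h1 : Tendsto (fun w : ℕ => (4 : ℝ) / (⌊(w : ℝ) ^ (3 / u)⌋₊ : ℝ)) atTop (𝓝 0) :=
      (tendsto_natCast_atTop_atTop.comp (vtend hu)).const_div_atTop 4
    filter_upwards [h1.eventually (gt_mem_nhds hδ)] with w hw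
    exact hw.le
  filter_upwards [(vtend hu).eventually_ge_atTop 5, hv4,
    hm.eventually (gt_mem_nhds (show Real.exp Real.eulerMascheroniConstant < K by rw [hK]; linarith)),
    hlog.eventually_ge_atTop 1,
    hlo.eventually (gt_mem_nhds (show (0 : ℝ) < δ / (16 * K ^ 2) by positivity)),
    eventually_ge_atTop ⌈K⌉₊, eventually_ge_atTop 1] with w h5 h4 hmw hlw hlow hwK hw1
  have hw1' : (1 : ℝ) ≤ w := by exact_mod_cast hw1
  have hwK' : K ≤ w := (Nat.le_ceil K).trans (by exact_mod_cast hwK)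
  have hMM : MM w ≤ K * Real.log w := by
    rw [div_lt_iff₀ (by linarith)] at hmw
    exact hmw.le
  have hvw : ⌊(w : ℝ) ^ (3 / u)⌋₊ ≤ w := by
    have h6 : (w : ℝ) ^ (3 / u) ≤ (w : ℝ) ^ (1 : ℝ) :=
      Real.rpow_le_rpow_of_exponent_le hw1' hu1.le
    rw [Real.rpow_one] at h6
    exact Nat.floor_le_of_le h6
  refine ⟨h5, hvw, ?_, h4, ?_⟩
  · have h5' : (5 : ℝ) ≤ ⌊(w : ℝ) ^ (3 / u)⌋₊ := by exact_mod_cast h5
    have h7 : (w : ℝ) ^ (3 / u) ≤ 2 * (⌊(w : ℝ) ^ (3 / u)⌋₊ : ℝ) := by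
      have := Nat.lt_floor_add_one ((w : ℝ) ^ (3 / u))
      linarith
    have h8 : 0 < (w : ℝ) ^ (3 / u) := by positivity
    have h9 : MM w ^ 2 ≤ K ^ 2 * Real.log w ^ (2 : ℝ) := by
      rw [show Real.log (w : ℝ) ^ (2 : ℝ) = Real.log w ^ 2 by
        rw [← Real.rpow_natCast]; norm_num, ← mul_pow]
      exact pow_le_pow_left₀ (MM_pos w).le hMM 2
    rw [div_lt_div_iff₀ h8 (by positivity)] at hlow
    rw [div_mul_eq_mul_div, div_le_iff₀ (by linarith)]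
    nlinarith
  · calc MM ⌊(w : ℝ) ^ (3 / u)⌋₊ ≤ MM w := MM_mono hvw
      _ ≤ K * Real.log w := hMM
      _ ≤ w * w := by
        have h6 := Real.log_le_self (show (0 : ℝ) ≤ w by linarith)
        have h7 : 0 ≤ Real.log (w : ℝ) := by linarith
        nlinarith
      _ ≤ (w : ℝ) ^ 3 := by nlinarith [mul_nonneg (show (0 : ℝ) ≤ w by linarith) (show (0 : ℝ) ≤ w by linarith)]

/-- the products and the common length -/
lemma core (hPVT : S_PVT) {v w : ℕ} (hv : 5 ≤ v) (hvw : v ≤ w) (hM : MM v ≤ (w : ℝ) ^ 3) :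
    ∃ U : ℕ, 0 < U ∧ (w : ℝ) ^ 3 / (2 * MM v) ≤ U ∧ (U : ℝ) ≤ 3 * (w : ℝ) ^ 3 / MM v ∧
      ∀ t : ℕ, (∀ p : ℕ, p.Prime → p ≤ w → (p ∣ t ↔ p ≤ v)) → UW w t = U ∧
        ((sg w t 0 U : ℝ) ≤
          ru v U * ∏ p ∈ (Finset.Ioc v w).filter Nat.Prime, (1 - 2 / ((p : ℝ) - 1)) + 4 * U / v →
          EE w t U ≤ (ru v U : ℝ) * MM v / U + 8 / v * MM w ^ 2) ∧
        (ru v U * ∏ p ∈ (Finset.Ioc v w).filter Nat.Prime, (1 - 2 / ((p : ℝ) - 1)) ≤ (sg w t 0 U : ℝ) →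
          (ru v U : ℝ) * MM v / U * (1 - 4 / v) ≤ EE w t U) := by
  obtain ⟨h1, ⟨h2, h2'⟩, ⟨h3, h3'⟩, h4⟩ := hPVT v w hv hvw
  set A := ∏ p ∈ (Finset.Ioc v w).filter Nat.Prime, (1 - 1 / ((p : ℝ) - 1) ^ 2) with hA
  set B := ∏ p ∈ (Finset.Ioc v w).filter Nat.Prime, (1 - 2 / (p : ℝ)) with hB
  set D := ∏ p ∈ (Finset.Ioc v w).filter Nat.Prime, (1 - 2 / ((p : ℝ) - 1)) with hD
  have hv5 : (5 : ℝ) ≤ v := by exact_mod_cast hv
  have hv0 : (0 : ℝ) < v := by linarith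
  have hv2 : (3 / 5 : ℝ) ≤ 1 - 2 / v := by
    have : (2 : ℝ) / v ≤ 2 / 5 := div_le_div_of_nonneg_left (by norm_num) (by norm_num) hv5
    linarith
  have hMv := MM_pos v
  have hMv1 := one_le_MM v
  have hMw := MM_pos w
  have hA0 : 3 / 5 ≤ A := hv2.trans h2
  have hB0 : 0 < B := lt_of_lt_of_le (by positivity) h4
  have hw0 : (0 : ℝ) < w := by
    have : 0 < w := by omega
    exact_mod_cast this
  have hx : (w : ℝ) ^ 3 / MM v ≤ (w : ℝ) ^ 3 / (MM v * A) :=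
    div_le_div_of_nonneg_left (by positivity) (by positivity) (by nlinarith)
  have hx1 : 1 ≤ (w : ℝ) ^ 3 / MM v := by rwa [one_le_div hMv]
  have hx2 : (w : ℝ) ^ 3 / (MM v * A) ≤ 5 / 3 * ((w : ℝ) ^ 3 / MM v) := by
    rw [div_le_iff₀ (by positivity)]
    have h5 : (w : ℝ) ^ 3 / MM v * MM v = (w : ℝ) ^ 3 := by field_simp
    have h6 : 0 < (w : ℝ) ^ 3 := by positivity
    calc (w : ℝ) ^ 3 = 5 / 3 * ((w : ℝ) ^ 3 / MM v * MM v) * (3 / 5) := by rw [h5]; ring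
      _ ≤ 5 / 3 * ((w : ℝ) ^ 3 / MM v * MM v) * A := by
        apply mul_le_mul_of_nonneg_left hA0
        rw [h5]; positivity
      _ = _ := by ring
  refine ⟨⌈(w : ℝ) ^ 3 / (MM v * A)⌉₊, ?_, ?_, ?_, fun t ht => ?_⟩
  · exact Nat.ceil_pos.2 (by linarith)
  · refine le_trans ?_ ((hx.trans (Nat.le_ceil _)))
    rw [mul_comm 2, ← div_div]
    linarith
  · have := Nat.ceil_lt_add_one (show 0 ≤ (w : ℝ) ^ 3 / (MM v * A) by positivity)
    rw [mul_div_assoc]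
    linarith
  · obtain ⟨h5, h6⟩ := h1 t ht
    have hU : UW w t = ⌈(w : ℝ) ^ 3 / (MM v * A)⌉₊ := by
      unfold UW
      rw [h6]
    obtain ⟨U, hUdef⟩ : ∃ U : ℕ, U = ⌈(w : ℝ) ^ 3 / (MM v * A)⌉₊ := ⟨_, rfl⟩
    rw [← hUdef] at hU ⊢
    have hU0 : (0 : ℝ) < U := by
      have : 0 < U := by
        rw [hUdef]
        exact Nat.ceil_pos.2 (by linarith)
      exact_mod_cast this
    have hru : (0 : ℝ) ≤ ru v U := Nat.cast_nonneg _
    have hEE : ∀ s : ℝ, s / (U * ((MM v)⁻¹ * B)) = s * MM v / U / B := by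
      intro s
      field_simp
    refine ⟨hU, fun h => ?_, fun h => ?_⟩
    · unfold EE
      rw [h5, hEE, div_le_iff₀ hB0, div_le_iff₀ hU0]
      have h7 : MM v ≤ 2 * MM w ^ 2 * B := by
        have h8 : (MM v / MM w) ^ 2 * (MM w ^ 2) = MM v ^ 2 := by field_simp
        have h9 : MM v ≤ MM v ^ 2 := by nlinarith
        have h10 : 3 / 5 * (MM v / MM w) ^ 2 ≤ B :=
          (mul_le_mul_of_nonneg_right hv2 (by positivity)).trans h4
        have h11 : 3 / 5 * MM v ^ 2 ≤ B * MM w ^ 2 := by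
          calc 3 / 5 * MM v ^ 2 = 3 / 5 * (MM v / MM w) ^ 2 * MM w ^ 2 := by rw [mul_assoc, h8]
            _ ≤ B * MM w ^ 2 := mul_le_mul_of_nonneg_right h10 (by positivity)
        nlinarith
      have h12 : (ru v U : ℝ) * D ≤ ru v U * B := mul_le_mul_of_nonneg_left h3 hru
      calc (sg w t 0 U : ℝ) * MM v ≤ (ru v U * D + 4 * U / v) * MM v :=
            mul_le_mul_of_nonneg_right h hMv.le
        _ = ru v U * D * MM v + 4 * U / v * MM v := by ring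
        _ ≤ ru v U * B * MM v + 4 * U / v * (2 * MM w ^ 2 * B) := by
          apply add_le_add (mul_le_mul_of_nonneg_right h12 hMv.le)
          exact mul_le_mul_of_nonneg_left h7 (by positivity)
        _ = _ := by field_simp; ring
    · unfold EE
      rw [h5, hEE, le_div_iff₀ hB0, le_div_iff₀ hU0]
      have h12 : (ru v U : ℝ) * ((1 - 4 / v) * B) ≤ ru v U * D := mul_le_mul_of_nonneg_left h3' hru
      calc (ru v U : ℝ) * MM v / U * (1 - 4 / v) * B * U = ru v U * ((1 - 4 / v) * B) * MM v := by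
            field_simp
        _ ≤ sg w t 0 U * MM v := mul_le_mul_of_nonneg_right (h12.trans h) hMv.le

theorem main (hGRD : S_GRD) (hPVT : S_PVT) (hLIM : S_LIM) (mert : S_MERT)
    (bddB : ∀ w : ℕ, BddBelow (Set.range fun t : ℕ => EE w t (UW w t)))
    (bddA : ∀ w : ℕ, BddAbove (Set.range fun t : ℕ => EE w t (UW w t))) : S_EXT := by
  have hpos := Real.exp_pos Real.eulerMascheroniConstant
  have hone : Real.exp Real.eulerMascheroniConstant * Real.exp (-Real.eulerMascheroniConstant) = 1 := by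
    rw [← Real.exp_add, add_neg_cancel, Real.exp_zero]
  obtain ⟨u₂, hu₂, ho₂⟩ := Pool.Agent.R529.BU.om_lt 4
  obtain ⟨x₁, hx₁, hy₁⟩ := Pool.Agent.R529.BU.om_gt 4
  obtain ⟨a, ha⟩ : ∃ a : ℝ, a = Real.exp Real.eulerMascheroniConstant * om u₂ := ⟨_, rfl⟩
  obtain ⟨b, hb⟩ : ∃ b : ℝ, b = Real.exp Real.eulerMascheroniConstant * om x₁ := ⟨_, rfl⟩
  have ha1 : a < 1 := by
    rw [ha, ← hone]
    exact mul_lt_mul_of_pos_left ho₂ hpos
  have ha0 : 0 < a := by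
    have := Pool.Agent.R529.BU.om_ge u₂ (by linarith)
    rw [ha]; positivity
  have hb1 : 1 < b := by
    rw [hb, ← hone]
    exact mul_lt_mul_of_pos_left hy₁ hpos
  -- the exponents for the lower density
  obtain ⟨u₁, h1, h2⟩ := exists_between (show max 3 (a * u₂) < u₂ from max_lt (by linarith) (by nlinarith))
  have h13 : 3 < u₁ := (le_max_left _ _).trans_lt h1
  have h1a : a * u₂ < u₁ := (le_max_right _ _).trans_lt h1
  have hr1 : a * (u₂ / u₁) < 1 := by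
    rw [← mul_div_assoc, div_lt_one (by linarith)]
    exact h1a
  obtain ⟨u, hu1, hu2⟩ := exists_between h2
  -- the exponents for the upper density
  obtain ⟨x₂, g1, g2⟩ := exists_between (show x₁ < b * x₁ by nlinarith)
  have hr2 : 1 < b * (x₁ / x₂) := by
    rw [← mul_div_assoc, one_lt_div (by linarith)]
    exact g2
  obtain ⟨x, gx1, gx2⟩ := exists_between g1
  obtain ⟨c, hc⟩ : ∃ c : ℝ, c = min (min ((1 - a * (u₂ / u₁)) / 4) ((b * (x₁ / x₂) - 1) / 4)) (1 / 4) := ⟨_, rfl⟩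
  have hc0 : 0 < c := by
    rw [hc]
    exact lt_min (lt_min (by linarith) (by linarith)) (by norm_num)
  have hc1 : a * (u₂ / u₁) ≤ 1 - 4 * c := by
    have : c ≤ (1 - a * (u₂ / u₁)) / 4 := by rw [hc]; exact (min_le_left _ _).trans (min_le_left _ _)
    linarith
  have hc2 : 1 + 4 * c ≤ b * (x₁ / x₂) := by
    have : c ≤ (b * (x₁ / x₂) - 1) / 4 := by rw [hc]; exact (min_le_left _ _).trans (min_le_right _ _)
    linarith
  have hc3 : c ≤ 1 / 4 := by rw [hc]; exact min_le_right _ _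
  refine ⟨c, hc0, ?_⟩
  filter_upwards [ev mert (h13.trans hu1) hc0, ev mert (show 3 < x by linarith) hc0,
    hLIM u₁ u u₂ c h13 hu1 hu2 hc0, hLIM x₁ x x₂ c (by linarith) gx1 gx2 hc0] with w e1 e2 l1 l2
  constructor
  · obtain ⟨k1, k2, k3, k4, k5⟩ := e1
    obtain ⟨U, hU0, hUa, hUb, hU⟩ := core hPVT k1 k2 k5
    obtain ⟨t, ht, ht'⟩ := (hGRD _ w U k1 k2).1
    obtain ⟨hUW, hup, -⟩ := hU t ht
    have h3 := (l1 U hUa hUb).1
    have h4 := hup ht'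
    have h5 : lo3 w ≤ EE w t (UW w t) := ciInf_le (bddB w) t
    rw [hUW] at h5
    rw [← ha] at h3
    linarith
  · obtain ⟨k1, k2, k3, k4, k5⟩ := e2
    obtain ⟨U, hU0, hUa, hUb, hU⟩ := core hPVT k1 k2 k5
    obtain ⟨t, ht, ht'⟩ := (hGRD _ w U k1 k2).2
    obtain ⟨hUW, -, hlo⟩ := hU t ht
    have h3 := (l2 U hUa hUb).2
    have h4 := hlo ht'
    have h5 : EE w t (UW w t) ≤ hi3 w := le_ciSup (bddA w) t
    rw [hUW] at h5
    rw [← hb] at h3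
    refine le_trans ?_ (h4.trans h5)
    have h6 : 1 + 3 * c ≤ (ru ⌊(w : ℝ) ^ (3 / x)⌋₊ U : ℝ) * MM ⌊(w : ℝ) ^ (3 / x)⌋₊ / U := by linarith
    have h7 : 1 - c ≤ 1 - 4 / (⌊(w : ℝ) ^ (3 / x)⌋₊ : ℝ) := by linarith
    calc 1 + c ≤ (1 + 3 * c) * (1 - c) := by nlinarith
      _ ≤ _ := mul_le_mul h6 h7 (by linarith) (by linarith)

end Pool.Agent.H95.GX.EXT
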