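import Pool.Agent.H95.GX.Stm
import Pool.Agent.H95.GG.T.POSG

/-! # GX-GRD (helper71) -/

set_option autoImplicit false

open Filter
open scoped Topology

namespace Pool.Agent.H95.GX.GRD

open Pool.Agent.H50.BF (MM)
open Pool.Agent.H50.GW (Rou)
open Pool.Agent.H13.GG (Bd sg nu PV SS)
open Pool.Agent.H95.GG (ru S_POSG)

open Classical in
/-- the survivors of the sieve by the classes `a p`, `v < p ≤ w` -/
noncomputable def SW (v w U : ℕ) (a : ℕ → ℕ) : Finset ℕ :=
  (Finset.Icc 1 U).filter (fun j => Rou v j ∧ ∀ p : ℕ, p.Prime → v < p → p ≤ w → ¬ Bd (a p) p j)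

theorem SW_base (v U : ℕ) (a : ℕ → ℕ) : (SW v v U a).card = ru v U := by
  classical
  unfold SW ru
  congr 1
  refine Finset.filter_congr fun j _ => ?_
  constructor
  · exact fun h => h.1
  · exact fun h => ⟨h, fun p _ h1 h2 => absurd h1 (by omega)⟩

theorem SW_not (v w U : ℕ) (a : ℕ → ℕ) (hp : ¬ (w + 1).Prime) : SW v (w + 1) U a = SW v w U a := by
  classical
  unfold SW
  refine Finset.filter_congr fun j _ => and_congr_right fun _ => ?_
  constructor
  · intro h p h1 h2 h3
    exact h p h1 h2 (by omega)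
  · intro h p h1 h2 h3
    rcases Nat.lt_succ_iff_lt_or_eq.1 (Nat.lt_succ_of_le h3) with h4 | h4
    · exact h p h1 h2 (by omega)
    · rw [h4] at h1
      exact absurd h1 hp

open Classical in
theorem SW_prime (v w U : ℕ) (a : ℕ → ℕ) (b : ℕ) (hvw : v ≤ w) (hp : (w + 1).Prime) :
    SW v (w + 1) U (Function.update a (w + 1) b) = (SW v w U a).filter (fun j => ¬ Bd b (w + 1) j) := by
  ext j
  unfold SW
  simp only [Finset.mem_filter]
  constructor
  · rintro ⟨h1, h2, h3⟩
    refine ⟨⟨h1, h2, fun p g1 g2 g3 => ?_⟩, ?_⟩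
    · have := h3 p g1 g2 (by omega)
      rwa [Function.update_of_ne (by omega)] at this
    · have := h3 (w + 1) hp (by omega) le_rfl
      rwa [Function.update_self] at this
  · rintro ⟨⟨h1, h2, h3⟩, h4⟩
    refine ⟨h1, h2, fun p g1 g2 g3 => ?_⟩
    rcases Nat.lt_succ_iff_lt_or_eq.1 (Nat.lt_succ_of_le g3) with h5 | h5
    · rw [Function.update_of_ne (by omega)]
      exact h3 p g1 g2 (by omega)
    · rw [h5, Function.update_self]
      exact h4

theorem Ioc_succ (v w : ℕ) (hvw : v ≤ w) : Finset.Ioc v (w + 1) = insert (w + 1) (Finset.Ioc v w) := by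
  ext n
  simp only [Finset.mem_Ioc, Finset.mem_insert]
  omega

open Classical in
theorem div_count (S : Finset ℕ) (U p : ℕ) (hS : ∀ j ∈ S, 1 ≤ j ∧ j ≤ U) :
    ((S.card : ℝ) - U / p) ≤ ((S.filter (fun j => ¬ p ∣ j)).card : ℝ) := by
  have h1 : (S.filter (fun j => p ∣ j)).card + (S.filter (fun j => ¬ p ∣ j)).card = S.card :=
    Finset.card_filter_add_card_filter_not _
  have h2 : (S.filter (fun j => p ∣ j)).card ≤ U / p := by
    rw [← Nat.Ioc_filter_dvd_card_eq_div]
    apply Finset.card_le_card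
    intro j hj
    rw [Finset.mem_filter] at hj ⊢
    have := hS j hj.1
    exact ⟨Finset.mem_Ioc.2 ⟨by omega, this.2⟩, hj.2⟩
  have h3 : ((U / p : ℕ) : ℝ) ≤ (U : ℝ) / p := Nat.cast_div_le
  have h4 : ((S.filter (fun j => p ∣ j)).card : ℝ) ≤ (U : ℝ) / p := le_trans (by exact_mod_cast h2) h3
  have h5 : ((S.filter (fun j => p ∣ j)).card : ℝ) + ((S.filter (fun j => ¬ p ∣ j)).card : ℝ) = S.card := by
    exact_mod_cast h1
  linarith

theorem upper (hA : S_AVG) (v U : ℕ) (hv : 5 ≤ v) (w : ℕ) (hvw : v ≤ w) :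
    ∃ a : ℕ → ℕ, (∀ p : ℕ, p.Prime → v < p → p ≤ w → 1 ≤ a p ∧ a p < p) ∧
      ((SW v w U a).card : ℝ) ≤ ru v U * ∏ p ∈ (Finset.Ioc v w).filter Nat.Prime, (1 - 2 / ((p : ℝ) - 1)) +
        2 * U * (1 / ((v : ℝ) - 1) - 1 / ((w : ℝ) - 1)) := by
  classical
  induction w, hvw using Nat.le_induction with
  | base =>
    refine ⟨fun _ => 0, fun p _ h1 h2 => absurd h1 (by omega), ?_⟩
    rw [SW_base]
    simp
  | succ w hw ih =>
    obtain ⟨a, ha, hc⟩ := ih
    have hw5 : (5 : ℝ) ≤ w := by exact_mod_cast hv.trans hw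
    have hU0 : (0 : ℝ) ≤ U := Nat.cast_nonneg U
    have hE : 1 / ((w : ℝ) - 1) - 1 / (((w + 1 : ℕ) : ℝ) - 1) = 1 / ((w : ℝ) * (w - 1)) := by
      push_cast
      rw [add_sub_cancel_right]
      have h1 : (w : ℝ) - 1 ≠ 0 := by linarith
      have h2 : (w : ℝ) ≠ 0 := by linarith
      field_simp
      ring
    have hE0 : 0 ≤ 1 / ((w : ℝ) * (w - 1)) := by
      refine div_nonneg zero_le_one (mul_nonneg (by linarith) (by linarith))
    by_cases hp : (w + 1).Prime
    · obtain ⟨⟨b, hb1, hb2, hb⟩, -⟩ := hA (w + 1) hp (by omega) (SW v w U a)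
      refine ⟨Function.update a (w + 1) b, ?_, ?_⟩
      · intro p h1 h2 h3
        rcases Nat.lt_succ_iff_lt_or_eq.1 (Nat.lt_succ_of_le h3) with h4 | h4
        · rw [Function.update_of_ne (by omega)]
          exact ha p h1 h2 (by omega)
        · rw [h4, Function.update_self]
          exact ⟨hb1, hb2⟩
      · rw [SW_prime v w U a b hw hp]
        have h1 := div_count (SW v w U a) U (w + 1) (by
          intro j hj
          unfold SW at hj
          rw [Finset.mem_filter, Finset.mem_Icc] at hj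
          exact hj.1)
        have h2 : ((((SW v w U a).filter (fun j => ¬ Bd b (w + 1) j)).card : ℕ) : ℝ) ≤
            (SW v w U a).card - 2 / (((w + 1 : ℕ) : ℝ) - 1) *
              (((SW v w U a).filter (fun j => ¬ (w + 1) ∣ j)).card : ℝ) := by
          convert hb using 1
        refine h2.trans ?_
        have hP0 : 0 ≤ ru v U * ∏ p ∈ (Finset.Ioc v w).filter Nat.Prime, (1 - 2 / ((p : ℝ) - 1)) := by
          refine mul_nonneg (Nat.cast_nonneg _) (Finset.prod_nonneg fun p hp => ?_)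
          rw [Finset.mem_filter, Finset.mem_Ioc] at hp
          have : (5 : ℝ) < p := by exact_mod_cast lt_of_le_of_lt hv hp.1.1
          rw [sub_nonneg, div_le_one (by linarith)]
          linarith
        rw [Ioc_succ v w hw, Finset.filter_insert, if_pos hp, Finset.prod_insert (by simp)]
        have e1 : ((w + 1 : ℕ) : ℝ) - 1 = w := by push_cast; ring
        rw [e1] at hE ⊢
        have hx0 : 0 ≤ 2 / (w : ℝ) := by positivity
        have hx1 : 2 / (w : ℝ) ≤ 1 := by rw [div_le_one (by linarith)]; linarith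
        have h3 : 2 / (w : ℝ) * ((SW v w U a).card - (U : ℝ) / ((w + 1 : ℕ) : ℝ)) ≤ 2 / (w : ℝ) *
            (((SW v w U a).filter (fun j => ¬ (w + 1) ∣ j)).card : ℝ) :=
          mul_le_mul_of_nonneg_left h1 hx0
        have h4 : 2 / (w : ℝ) * ((U : ℝ) / ((w + 1 : ℕ) : ℝ)) ≤ 2 * U * (1 / ((w : ℝ) * (w - 1))) := by
          push_cast
          rw [div_mul_div_comm, mul_one_div]
          apply div_le_div_of_nonneg_left (by positivity) (mul_pos (by linarith) (by linarith))
          nlinarith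
        have h5 : (1 - 2 / (w : ℝ)) * ((SW v w U a).card : ℝ) ≤ (1 - 2 / (w : ℝ)) *
            (ru v U * ∏ p ∈ (Finset.Ioc v w).filter Nat.Prime, (1 - 2 / ((p : ℝ) - 1)) +
              2 * U * (1 / ((v : ℝ) - 1) - 1 / ((w : ℝ) - 1))) :=
          mul_le_mul_of_nonneg_left hc (by linarith)
        have h6 : 0 ≤ 2 * (U : ℝ) * (1 / ((v : ℝ) - 1) - 1 / ((w : ℝ) - 1)) := by
          refine mul_nonneg (by positivity) (sub_nonneg.2 ?_)
          apply one_div_le_one_div_of_le
          · have : (5 : ℝ) ≤ v := by exact_mod_cast hv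
            linarith
          · have : (v : ℝ) ≤ w := by exact_mod_cast hw
            linarith
        have h7 : 2 * (U : ℝ) * (1 / ((v : ℝ) - 1) - 1 / (w : ℝ)) =
            2 * U * (1 / ((v : ℝ) - 1) - 1 / ((w : ℝ) - 1)) + 2 * U * (1 / ((w : ℝ) * (w - 1))) := by
          rw [← hE]; ring
        rw [h7]
        nlinarith
    · refine ⟨a, ?_, ?_⟩
      · intro p h1 h2 h3
        rcases Nat.lt_succ_iff_lt_or_eq.1 (Nat.lt_succ_of_le h3) with h4 | h4
        · exact ha p h1 h2 (by omega)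
        · rw [h4] at h1
          exact absurd h1 hp
      · rw [SW_not v w U a hp, Ioc_succ v w hw, Finset.filter_insert, if_neg hp]
        refine hc.trans ?_
        have : 2 * (U : ℝ) * (1 / ((v : ℝ) - 1) - 1 / (((w + 1 : ℕ) : ℝ) - 1)) =
            2 * U * (1 / ((v : ℝ) - 1) - 1 / ((w : ℝ) - 1)) + 2 * U * (1 / ((w : ℝ) * (w - 1))) := by
          rw [← hE]; ring
        rw [this]
        have := mul_nonneg (mul_nonneg (by norm_num : (0 : ℝ) ≤ 2) hU0) hE0
        linarith

theorem lower (hA : S_AVG) (v U : ℕ) (hv : 5 ≤ v) (w : ℕ) (hvw : v ≤ w) :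
    ∃ a : ℕ → ℕ, (∀ p : ℕ, p.Prime → v < p → p ≤ w → 1 ≤ a p ∧ a p < p) ∧
      ru v U * ∏ p ∈ (Finset.Ioc v w).filter Nat.Prime, (1 - 2 / ((p : ℝ) - 1)) ≤
        ((SW v w U a).card : ℝ) := by
  classical
  induction w, hvw using Nat.le_induction with
  | base =>
    refine ⟨fun _ => 0, fun p _ h1 h2 => absurd h1 (by omega), ?_⟩
    rw [SW_base]
    simp
  | succ w hw ih =>
    obtain ⟨a, ha, hc⟩ := ih
    have hw5 : (5 : ℝ) ≤ w := by exact_mod_cast hv.trans hw
    by_cases hp : (w + 1).Prime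
    · obtain ⟨-, ⟨b, hb1, hb2, hb⟩⟩ := hA (w + 1) hp (by omega) (SW v w U a)
      refine ⟨Function.update a (w + 1) b, ?_, ?_⟩
      · intro p h1 h2 h3
        rcases Nat.lt_succ_iff_lt_or_eq.1 (Nat.lt_succ_of_le h3) with h4 | h4
        · rw [Function.update_of_ne (by omega)]
          exact ha p h1 h2 (by omega)
        · rw [h4, Function.update_self]
          exact ⟨hb1, hb2⟩
      · rw [SW_prime v w U a b hw hp]
        have h2 : ((SW v w U a).card : ℝ) * (1 - 2 / (((w + 1 : ℕ) : ℝ) - 1)) ≤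
            (((SW v w U a).filter (fun j => ¬ Bd b (w + 1) j)).card : ℝ) := by
          convert hb using 1
        refine le_trans ?_ h2
        rw [Ioc_succ v w hw, Finset.filter_insert, if_pos hp, Finset.prod_insert (by simp)]
        have e1 : ((w + 1 : ℕ) : ℝ) - 1 = w := by push_cast; ring
        rw [e1]
        have hx1 : 2 / (w : ℝ) ≤ 1 := by rw [div_le_one (by linarith)]; linarith
        have h5 := mul_le_mul_of_nonneg_left hc (sub_nonneg.2 hx1)
        linarith
    · refine ⟨a, ?_, ?_⟩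
      · intro p h1 h2 h3
        rcases Nat.lt_succ_iff_lt_or_eq.1 (Nat.lt_succ_of_le h3) with h4 | h4
        · exact ha p h1 h2 (by omega)
        · rw [h4] at h1
          exact absurd h1 hp
      · rw [SW_not v w U a hp, Ioc_succ v w hw, Finset.filter_insert, if_neg hp]
        exact hc

theorem crt (hP : S_POSG) (v w U : ℕ) (hvw : v ≤ w) (a : ℕ → ℕ)
    (ha : ∀ p : ℕ, p.Prime → v < p → p ≤ w → 1 ≤ a p ∧ a p < p) :
    ∃ t : ℕ, (∀ p : ℕ, p.Prime → p ≤ w → (p ∣ t ↔ p ≤ v)) ∧ sg w t 0 U = (SW v w U a).card := by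
  classical
  obtain ⟨I, hI, hI2, -⟩ := hP w 0 (primorial w) 0 1 (fun p => if p ≤ v then 0 else a p) (by simp)
  obtain ⟨t, ht⟩ := Finset.card_eq_one.1 hI
  obtain ⟨-, -, h3⟩ := hI2 t (by rw [ht]; exact Finset.mem_singleton_self t)
  have hd : ∀ p : ℕ, p.Prime → p ≤ w → (p ∣ t ↔ p ≤ v) := by
    intro p hp hpw
    have h4 := h3 p hp hpw
    by_cases hpv : p ≤ v
    · simp only [if_pos hpv, Nat.zero_mod] at h4
      exact ⟨fun _ => hpv, fun _ => Nat.dvd_of_mod_eq_zero h4⟩
    · simp only [if_neg hpv] at h4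
      have h5 := ha p hp (by omega) hpw
      rw [Nat.mod_eq_of_lt h5.2] at h4
      constructor
      · intro h6
        rw [Nat.mod_eq_zero_of_dvd h6] at h4
        omega
      · intro h6
        exact absurd h6 hpv
  refine ⟨t, hd, ?_⟩
  unfold sg SW
  refine Finset.card_bij (fun j _ => j + 1) ?_ (fun j _ j' _ h => by omega) ?_
  · intro j hj
    rw [Finset.mem_filter, Finset.mem_range] at hj
    rw [Finset.mem_filter, Finset.mem_Icc]
    refine ⟨by omega, ?_, ?_⟩
    · intro p hp hpv hpj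
      by_cases hpw : p ≤ w
      · have h4 := hj.2 p hp hpw
        apply h4
        left
        have h5 := (hd p hp hpw).2 hpv
        rw [zero_add]
        exact dvd_add h5 hpj
      · exact absurd (hpv.trans hvw) hpw
    · intro p hp hpv hpw hB
      have h4 := hj.2 p hp hpw
      apply h4
      have h5 := h3 p hp hpw
      simp only [if_neg (by omega : ¬ p ≤ v)] at h5
      rw [zero_add]
      rcases hB with hB | hB
      · left
        rw [Nat.dvd_iff_mod_eq_zero, Nat.add_mod] at hB ⊢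
        rw [h5]
        exact hB
      · right
        rw [h5]
        exact hB
  · intro j hj
    rw [Finset.mem_filter, Finset.mem_Icc] at hj
    obtain ⟨⟨g1, g2⟩, g3, g4⟩ := hj
    refine ⟨j - 1, ?_, by omega⟩
    rw [Finset.mem_filter, Finset.mem_range]
    refine ⟨by omega, ?_⟩
    intro p hp hpw
    have e : 0 + (j - 1) + 1 = j := by omega
    rw [e]
    by_cases hpv : p ≤ v
    · have h5 := (hd p hp hpw).2 hpv
      intro hB
      apply g3 p hp hpv
      rcases hB with hB | hB
      · exact (Nat.dvd_add_right h5).1 hB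
      · rw [Nat.mod_eq_zero_of_dvd h5] at hB
        exact Nat.dvd_of_mod_eq_zero hB
    · have h5 := h3 p hp hpw
      simp only [if_neg hpv] at h5
      intro hB
      apply g4 p hp (by omega) hpw
      rcases hB with hB | hB
      · left
        rw [Nat.dvd_iff_mod_eq_zero, Nat.add_mod] at hB ⊢
        rw [← h5]
        exact hB
      · right
        rw [← h5]
        exact hB

theorem main (hA : S_AVG) : S_GRD := by
  intro v w U hv hvw
  have hP : S_POSG := Pool.Agent.H95.GG.T.POSG.main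
  constructor
  · obtain ⟨a, ha, hc⟩ := upper hA v U hv w hvw
    obtain ⟨t, ht1, ht2⟩ := crt hP v w U hvw a ha
    refine ⟨t, ht1, ?_⟩
    rw [ht2]
    refine hc.trans ?_
    have hv5 : (5 : ℝ) ≤ v := by exact_mod_cast hv
    have hw5 : (5 : ℝ) ≤ w := by exact_mod_cast hv.trans hvw
    have h1 : 0 ≤ 1 / ((w : ℝ) - 1) := div_nonneg zero_le_one (by linarith)
    have h2 : 1 / ((v : ℝ) - 1) ≤ 2 / v := by
      rw [div_le_div_iff₀ (by linarith) (by linarith)]
      linarith
    have h3 : 2 * (U : ℝ) * (1 / ((v : ℝ) - 1) - 1 / ((w : ℝ) - 1)) ≤ 2 * U * (2 / v) :=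
      mul_le_mul_of_nonneg_left (by linarith) (by positivity)
    have h4 : 2 * (U : ℝ) * (2 / v) = 4 * U / v := by ring
    linarith
  · obtain ⟨a, ha, hc⟩ := lower hA v U hv w hvw
    obtain ⟨t, ht1, ht2⟩ := crt hP v w U hvw a ha
    exact ⟨t, ht1, by rw [ht2]; exact hc⟩

end Pool.Agent.H95.GX.GRD
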