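import Pool.Agent.H95.GX.Stm
import Pool.Agent.H50.BF.MMB

/-! # GX-LIM (helper72): the Buchstab limit with an approximate exponent -/

set_option autoImplicit false

namespace Pool.Agent.H95.GX.LIM

open Filter
open scoped Topology
open Pool.Agent.H50.BF (MM S_MERT)
open Pool.Agent.H95.GG (ru S_ROU)
open Pool.Agent.R529.BU (om)

/-- the logarithm of the integral part -/
theorem log_floor : Tendsto (fun x : ℝ => Real.log (⌊x⌋₊ : ℝ) / Real.log x) atTop (𝓝 1) := by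
  have h1 : Tendsto (fun x : ℝ => Real.log ((⌊x⌋₊ : ℝ) / x)) atTop (𝓝 0) := by
    have h := (Real.continuousAt_log one_ne_zero).tendsto.comp (tendsto_nat_floor_div_atTop (R := ℝ))
    rw [Real.log_one] at h
    exact h
  have h2 : Tendsto (fun x : ℝ => 1 + Real.log ((⌊x⌋₊ : ℝ) / x) / Real.log x) atTop (𝓝 (1 + 0)) :=
    (h1.div_atTop Real.tendsto_log_atTop).const_add 1
  rw [add_zero] at h2
  refine h2.congr' ?_
  filter_upwards [eventually_ge_atTop (2 : ℝ)] with x hx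
  have hf : (0 : ℝ) < (⌊x⌋₊ : ℝ) := by
    have : 0 < ⌊x⌋₊ := Nat.floor_pos.2 (by linarith)
    exact_mod_cast this
  have hl : 0 < Real.log x := Real.log_pos (by linarith)
  rw [Real.log_div hf.ne' (by linarith)]
  field_simp
  ring

theorem pow_atTop {s : ℝ} (hs : 0 < s) :
    Tendsto (fun U : ℕ => (U : ℝ) ^ (1 / s)) atTop atTop :=
  (tendsto_rpow_atTop (by positivity)).comp tendsto_natCast_atTop_atTop

/-- the Mertens product at a power -/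
theorem mm_pow (M : ℕ → ℝ) (E : ℝ)
    (hM : Tendsto (fun N : ℕ => M N / Real.log N) atTop (𝓝 E)) {s : ℝ} (hs : 0 < s) :
    Tendsto (fun U : ℕ => M ⌊(U : ℝ) ^ (1 / s)⌋₊ / Real.log U) atTop (𝓝 (E * (1 / s))) := by
  have hp := pow_atTop hs
  have hf : Tendsto (fun U : ℕ => ⌊(U : ℝ) ^ (1 / s)⌋₊) atTop atTop := tendsto_nat_floor_atTop.comp hp
  have h1 := hM.comp hf
  have h2 := log_floor.comp hp
  have h3 := h1.mul (h2.mul_const (1 / s))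
  rw [one_mul] at h3
  refine h3.congr' ?_
  filter_upwards [eventually_ge_atTop 2, hf.eventually_ge_atTop 2] with U hU hU2
  have hU0 : (1 : ℝ) < U := by exact_mod_cast (by omega : 1 < U)
  have hl : 0 < Real.log U := Real.log_pos hU0
  have hU3 : (1 : ℝ) < (⌊(U : ℝ) ^ (1 / s)⌋₊ : ℝ) := by exact_mod_cast (by omega : 1 < ⌊(U : ℝ) ^ (1 / s)⌋₊)
  have hl2 : 0 < Real.log (⌊(U : ℝ) ^ (1 / s)⌋₊ : ℝ) := Real.log_pos hU3
  simp only [Function.comp_apply]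
  rw [Real.log_rpow (by linarith)]
  field_simp

theorem mm_ratio (M : ℕ → ℝ) (E : ℝ) (hE : 0 < E)
    (hM : Tendsto (fun N : ℕ => M N / Real.log N) atTop (𝓝 E)) {s t : ℝ} (hs : 0 < s) (ht : 0 < t) :
    Tendsto (fun U : ℕ => M ⌊(U : ℝ) ^ (1 / s)⌋₊ / M ⌊(U : ℝ) ^ (1 / t)⌋₊) atTop (𝓝 (t / s)) := by
  have h := (mm_pow M E hM hs).div (mm_pow M E hM ht) (by positivity)
  have e : E * (1 / s) / (E * (1 / t)) = t / s := by
    field_simp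
  rw [e] at h
  refine h.congr' ?_
  filter_upwards [eventually_ge_atTop 2] with U hU
  have hU0 : (1 : ℝ) < U := by exact_mod_cast (by omega : 1 < U)
  have hl : 0 < Real.log U := Real.log_pos hU0
  simp only [Pi.div_apply]
  rw [div_div_div_cancel_right₀ hl.ne']

theorem gen (M : ℕ → ℝ) (E : ℝ) (hE : 0 < E) (hmono : Monotone M) (hone : ∀ N, 1 ≤ M N)
    (hM : Tendsto (fun N : ℕ => M N / Real.log N) atTop (𝓝 E)) (r : ℕ → ℕ → ℕ)
    (hru : ∀ a b x : ℕ, a ≤ b → r b x ≤ r a x) (o : ℝ → ℝ)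
    (hR : ∀ u : ℝ, 1 < u → Tendsto (fun x : ℕ => (r ⌊(x : ℝ) ^ (1 / u)⌋₊ x : ℝ) *
      M ⌊(x : ℝ) ^ (1 / u)⌋₊ / x) atTop (𝓝 (E * o u))) :
    ∀ u₁ u u₂ ε : ℝ, 3 < u₁ → u₁ < u → u < u₂ → 0 < ε → ∀ᶠ w : ℕ in atTop, ∀ U : ℕ,
      (w : ℝ) ^ 3 / (2 * M ⌊(w : ℝ) ^ (3 / u)⌋₊) ≤ U →
      (U : ℝ) ≤ 3 * (w : ℝ) ^ 3 / M ⌊(w : ℝ) ^ (3 / u)⌋₊ →
      (r ⌊(w : ℝ) ^ (3 / u)⌋₊ U : ℝ) * M ⌊(w : ℝ) ^ (3 / u)⌋₊ / U ≤
        E * o u₂ * (u₂ / u₁) + ε ∧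
      E * o u₁ * (u₁ / u₂) - ε ≤
        (r ⌊(w : ℝ) ^ (3 / u)⌋₊ U : ℝ) * M ⌊(w : ℝ) ^ (3 / u)⌋₊ / U := by
  intro u₁ u u₂ ε h3 h12 h23 hε
  have hu1 : 0 < u₁ := by linarith
  have hu : 0 < u := by linarith
  have hu2 : 0 < u₂ := by linarith
  have hpos : ∀ N, 0 < M N := fun N => lt_of_lt_of_le one_pos (hone N)
  -- the limits for `U → ∞`
  have hup : Tendsto (fun U : ℕ => (r ⌊(U : ℝ) ^ (1 / u₂)⌋₊ U : ℝ) * M ⌊(U : ℝ) ^ (1 / u₁)⌋₊ / U)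
      atTop (𝓝 (E * o u₂ * (u₂ / u₁))) := by
    refine ((hR u₂ (by linarith)).mul (mm_ratio M E hE hM hu1 hu2)).congr fun U => ?_
    have := (hpos ⌊(U : ℝ) ^ (1 / u₂)⌋₊).ne'
    field_simp
  have hlo : Tendsto (fun U : ℕ => (r ⌊(U : ℝ) ^ (1 / u₁)⌋₊ U : ℝ) * M ⌊(U : ℝ) ^ (1 / u₂)⌋₊ / U)
      atTop (𝓝 (E * o u₁ * (u₁ / u₂))) := by
    refine ((hR u₁ (by linarith)).mul (mm_ratio M E hE hM hu2 hu1)).congr fun U => ?_
    have := (hpos ⌊(U : ℝ) ^ (1 / u₁)⌋₊).ne'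
    field_simp
  obtain ⟨U₀, hU₀⟩ := eventually_atTop.1
    ((hup.eventually_le_const (by linarith : E * o u₂ * (u₂ / u₁) < E * o u₂ * (u₂ / u₁) + ε)).and
      (hlo.eventually_const_le (by linarith : E * o u₁ * (u₁ / u₂) - ε < E * o u₁ * (u₁ / u₂))))
  obtain ⟨c, hc⟩ : ∃ c : ℝ, c = 3 * u₁ / u := ⟨_, rfl⟩
  have hc0 : 0 < c := by rw [hc]; positivity
  have hc3 : c < 3 := by
    rw [hc, div_lt_iff₀ hu]
    linarith
  obtain ⟨d, hd⟩ : ∃ d : ℝ, d = 3 * u₂ / u - 3 := ⟨_, rfl⟩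
  have hd0 : 0 < d := by
    rw [hd, sub_pos, lt_div_iff₀ hu]
    linarith
  have t1 : ∀ᶠ w : ℕ in atTop, 2 * M ⌊(w : ℝ) ^ (3 / u)⌋₊ ≤ (w : ℝ) ^ (3 - c) := by
    have g1 : ∀ᶠ w : ℕ in atTop, M w / Real.log w ≤ E + 1 := hM.eventually_le_const (by linarith)
    have g2 : ∀ᶠ w : ℕ in atTop, ‖Real.log (w : ℝ)‖ ≤ 1 / (2 * (E + 1)) * ‖(w : ℝ) ^ (3 - c)‖ :=
      tendsto_natCast_atTop_atTop.eventually
        ((isLittleO_log_rpow_atTop (by linarith : 0 < 3 - c)).bound (by positivity))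
    filter_upwards [g1, g2, eventually_ge_atTop 2] with w k1 k2 k3
    have hw1 : (1 : ℝ) < w := by exact_mod_cast (by omega : 1 < w)
    have hl : 0 < Real.log w := Real.log_pos hw1
    rw [div_le_iff₀ hl] at k1
    rw [Real.norm_of_nonneg hl.le, Real.norm_of_nonneg (by positivity)] at k2
    have k4 : ⌊(w : ℝ) ^ (3 / u)⌋₊ ≤ w := by
      have k5 : (w : ℝ) ^ (3 / u) ≤ (w : ℝ) ^ (1 : ℝ) := by
        apply Real.rpow_le_rpow_of_exponent_le hw1.le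
        rw [div_le_one hu]
        linarith
      rw [Real.rpow_one] at k5
      have k6 := Nat.floor_mono k5
      rwa [Nat.floor_natCast] at k6
    have k7 := hmono k4
    have k8 : 2 * (E + 1) * Real.log w ≤ (w : ℝ) ^ (3 - c) := by
      have := mul_le_mul_of_nonneg_left k2 (by positivity : (0 : ℝ) ≤ 2 * (E + 1))
      rw [← mul_assoc, mul_one_div_cancel (by positivity), one_mul] at this
      exact this
    linarith
  have t2 : ∀ᶠ w : ℕ in atTop, (3 : ℝ) ≤ (w : ℝ) ^ d :=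
    ((tendsto_rpow_atTop hd0).comp tendsto_natCast_atTop_atTop).eventually_ge_atTop 3
  have t3 : ∀ᶠ w : ℕ in atTop, (U₀ : ℝ) ≤ (w : ℝ) ^ c :=
    ((tendsto_rpow_atTop hc0).comp tendsto_natCast_atTop_atTop).eventually_ge_atTop (U₀ : ℝ)
  filter_upwards [t1, t2, t3, eventually_ge_atTop 2] with w k1 k2 k3 k4 U hU1 hU2
  have hw0 : (0 : ℝ) < w := by exact_mod_cast (by omega : 0 < w)
  obtain ⟨v, hv⟩ : ∃ v : ℕ, v = ⌊(w : ℝ) ^ (3 / u)⌋₊ := ⟨_, rfl⟩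
  rw [← hv] at k1 hU1 hU2 ⊢
  have hvp := hpos v
  have e1 : (w : ℝ) ^ c ≤ U := by
    refine le_trans ?_ hU1
    rw [le_div_iff₀ (by positivity)]
    calc (w : ℝ) ^ c * (2 * M v) ≤ (w : ℝ) ^ c * (w : ℝ) ^ (3 - c) :=
          mul_le_mul_of_nonneg_left k1 (by positivity)
      _ = (w : ℝ) ^ (3 : ℝ) := by rw [← Real.rpow_add hw0]; congr 1; ring
      _ = (w : ℝ) ^ 3 := by norm_cast
  have e2 : (U : ℝ) ≤ (w : ℝ) ^ (3 * u₂ / u) := by
    refine hU2.trans ?_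
    calc 3 * (w : ℝ) ^ 3 / M v ≤ 3 * (w : ℝ) ^ 3 / 1 :=
          div_le_div_of_nonneg_left (by positivity) one_pos (hone v)
      _ = 3 * (w : ℝ) ^ 3 := by rw [div_one]
      _ ≤ (w : ℝ) ^ d * (w : ℝ) ^ 3 := mul_le_mul_of_nonneg_right k2 (by positivity)
      _ = (w : ℝ) ^ d * (w : ℝ) ^ (3 : ℝ) := by norm_cast
      _ = (w : ℝ) ^ (3 * u₂ / u) := by rw [← Real.rpow_add hw0]; congr 1; rw [hd]; ring
  have hU0 : (0 : ℝ) < U := lt_of_lt_of_le (by positivity) e1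
  have hUU : U₀ ≤ U := by exact_mod_cast k3.trans e1
  have e3 : v ≤ ⌊(U : ℝ) ^ (1 / u₁)⌋₊ := by
    rw [hv]
    apply Nat.floor_mono
    calc (w : ℝ) ^ (3 / u) = ((w : ℝ) ^ c) ^ (1 / u₁) := by
          rw [← Real.rpow_mul hw0.le]
          congr 1
          rw [hc]
          field_simp
      _ ≤ (U : ℝ) ^ (1 / u₁) := Real.rpow_le_rpow (by positivity) e1 (by positivity)
  have e4 : ⌊(U : ℝ) ^ (1 / u₂)⌋₊ ≤ v := by
    rw [hv]
    apply Nat.floor_mono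
    calc (U : ℝ) ^ (1 / u₂) ≤ ((w : ℝ) ^ (3 * u₂ / u)) ^ (1 / u₂) :=
          Real.rpow_le_rpow hU0.le e2 (by positivity)
      _ = (w : ℝ) ^ (3 / u) := by
          rw [← Real.rpow_mul hw0.le]
          congr 1
          field_simp
  obtain ⟨r1, r2⟩ := hU₀ U hUU
  have q1 : (r v U : ℝ) ≤ r ⌊(U : ℝ) ^ (1 / u₂)⌋₊ U := by exact_mod_cast hru _ _ U e4
  have q2 : (r ⌊(U : ℝ) ^ (1 / u₁)⌋₊ U : ℝ) ≤ r v U := by exact_mod_cast hru _ _ U e3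
  have q3 := hmono e3
  have q4 := hmono e4
  constructor
  · refine le_trans ?_ r1
    apply div_le_div_of_nonneg_right _ hU0.le
    exact mul_le_mul q1 q3 hvp.le (Nat.cast_nonneg _)
  · refine r2.trans ?_
    apply div_le_div_of_nonneg_right _ hU0.le
    exact mul_le_mul q2 q4 (hpos _).le (Nat.cast_nonneg _)

theorem ru_anti (a b x : ℕ) (hab : a ≤ b) : ru b x ≤ ru a x := by
  classical
  unfold ru
  apply Finset.card_le_card
  intro n hn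
  rw [Finset.mem_filter] at hn ⊢
  exact ⟨hn.1, fun p hp hpa => hn.2 p hp (hpa.trans hab)⟩

theorem main (hR : S_ROU) (hM : S_MERT) : S_LIM :=
  gen MM _ (Real.exp_pos _) Pool.Agent.H50.BF.MM_mono Pool.Agent.H50.BF.one_le_MM hM ru ru_anti om hR

end Pool.Agent.H95.GX.LIM
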