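import Pool.Agent.H95.GX.Stm
import Pool.Agent.H13.GG.NU

/-! # GX-PVT (helper71) -/

set_option autoImplicit false

open Filter
open scoped Topology

namespace Pool.Agent.H95.GX.PVT

open Pool.Agent.H50.BF (MM)
open Pool.Agent.H13.GG (Bd sg nu PV SS nu')

lemma nu_eq {h p : ℕ} (hp : p.Prime) : (nu h p : ℝ) = if p ∣ 2 * h then 1 else 2 := by
  classical
  obtain ⟨h1, h2, h3⟩ := nu'.1 h p hp
  by_cases hd : p ∣ 2 * h
  · rw [if_pos hd, h3 hd]
    norm_num
  · rw [if_neg hd]
    have h4 : 2 ≤ nu h p := by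
      have hp0 := hp.pos
      have hne : h % p ≠ (p - h % p) % p := by
        intro heq
        apply hd
        have h5 : (h % p + (p - h % p)) % p = 0 := by
          rw [Nat.add_sub_cancel' (Nat.mod_lt _ hp0).le]
          exact Nat.mod_self p
        have h6 : (h + h) % p = 0 := by
          rw [Nat.add_mod]
          rw [Nat.add_mod, Nat.mod_mod, ← heq] at h5
          exact h5
        have h7 := Nat.dvd_of_mod_eq_zero h6
        rwa [← two_mul] at h7
      have hsub : ({h % p, (p - h % p) % p} : Finset ℕ) ⊆ (Finset.range p).filter (fun r => Bd h p r) := by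
        intro r hr
        rw [Finset.mem_insert, Finset.mem_singleton] at hr
        rw [Finset.mem_filter, Finset.mem_range]
        rcases hr with rfl | rfl
        · exact ⟨Nat.mod_lt _ hp0, Or.inr (Nat.mod_mod _ _)⟩
        · refine ⟨Nat.mod_lt _ hp0, Or.inl ?_⟩
          rw [Nat.dvd_iff_mod_eq_zero, Nat.add_mod, Nat.mod_mod]
          have h5 : (h % p + (p - h % p)) % p = 0 := by
            rw [Nat.add_sub_cancel' (Nat.mod_lt _ hp0).le]
            exact Nat.mod_self p
          rw [Nat.add_mod, Nat.mod_mod] at h5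
          exact h5
      have hc := Finset.card_le_card hsub
      rw [Finset.card_insert_of_notMem (by rwa [Finset.mem_singleton]), Finset.card_singleton] at hc
      unfold nu
      exact hc
    have : nu h p = 2 := by omega
    rw [this]
    norm_num

/-- product of `1 - x p` over primes, telescoping bound -/
theorem prod_lower (v w : ℕ) (hvw : v ≤ w) (x g : ℕ → ℝ)
    (hx0 : ∀ n, v ≤ n → 0 ≤ x (n + 1)) (hx1 : ∀ n, v ≤ n → x (n + 1) ≤ 1)
    (hg0 : ∀ n, v ≤ n → 0 ≤ g n) (hg : ∀ n, v ≤ n → x (n + 1) ≤ g n - g (n + 1)) :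
    1 - g v + g w ≤ ∏ p ∈ (Finset.Ioc v w).filter Nat.Prime, (1 - x p) ∧
    ∏ p ∈ (Finset.Ioc v w).filter Nat.Prime, (1 - x p) ≤ 1 ∧
    0 ≤ ∏ p ∈ (Finset.Ioc v w).filter Nat.Prime, (1 - x p) := by
  induction w, hvw using Nat.le_induction with
  | base => simp
  | succ w hw ih =>
    obtain ⟨ih1, ih2, ih3⟩ := ih
    have h1 := hx0 w hw
    have h2 := hx1 w hw
    have h3 := hg w hw
    have h4 := hg0 w hw
    have e : Finset.Ioc v (w + 1) = insert (w + 1) (Finset.Ioc v w) := by
      ext n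
      simp only [Finset.mem_Ioc, Finset.mem_insert]
      omega
    by_cases hp : (w + 1).Prime
    · rw [e, Finset.filter_insert, if_pos hp, Finset.prod_insert (by simp)]
      refine ⟨?_, ?_, ?_⟩
      · nlinarith
      · nlinarith
      · exact mul_nonneg (by linarith) ih3
    · rw [e, Finset.filter_insert, if_neg hp]
      exact ⟨by linarith, ih2, ih3⟩

theorem split (v w : ℕ) (hvw : v ≤ w) (f : ℕ → ℝ) :
    ∏ p ∈ (Finset.Icc 1 w).filter Nat.Prime, f p =
      (∏ p ∈ (Finset.Icc 1 v).filter Nat.Prime, f p) * ∏ p ∈ (Finset.Ioc v w).filter Nat.Prime, f p := by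
  rw [← Finset.prod_union]
  · rw [← Finset.filter_union]
    congr 2
    ext n
    simp only [Finset.mem_union, Finset.mem_Icc, Finset.mem_Ioc]
    omega
  · rw [Finset.disjoint_left]
    intro n h1 h2
    rw [Finset.mem_filter, Finset.mem_Icc] at h1
    rw [Finset.mem_filter, Finset.mem_Ioc] at h2
    omega

theorem one_sub_inv_pos' {p : ℕ} (hp : p.Prime) : 0 < 1 - (p : ℝ)⁻¹ := by
  have : (2 : ℝ) ≤ p := by exact_mod_cast hp.two_le
  have : (p : ℝ)⁻¹ ≤ 2⁻¹ := inv_anti₀ (by norm_num) this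
  linarith

theorem MM_pos' (v : ℕ) : 0 < MM v := by
  unfold MM
  refine Finset.prod_pos fun p hp => inv_pos.2 (one_sub_inv_pos' (Finset.mem_filter.1 hp).2)

theorem main : S_PVT := by
  intro v w hv hvw
  have hv' : (5 : ℝ) ≤ v := by exact_mod_cast hv
  have hmem : ∀ p ∈ (Finset.Ioc v w).filter Nat.Prime, p.Prime ∧ v < p ∧ p ≤ w ∧ (5 : ℝ) < p := by
    intro p hp
    rw [Finset.mem_filter, Finset.mem_Ioc] at hp
    refine ⟨hp.2, hp.1.1, hp.1.2, ?_⟩
    exact_mod_cast lt_of_le_of_lt hv hp.1.1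
  have hMM := MM_pos' v
  have hMMw : MM w = MM v * ∏ p ∈ (Finset.Ioc v w).filter Nat.Prime, (1 - (p : ℝ)⁻¹)⁻¹ :=
    split v w hvw fun p => (1 - (p : ℝ)⁻¹)⁻¹
  obtain ⟨Q, hQ⟩ : ∃ Q, Q = ∏ p ∈ (Finset.Ioc v w).filter Nat.Prime, (1 - (p : ℝ)⁻¹) := ⟨_, rfl⟩
  have hQ0 : 0 < Q := by
    rw [hQ]
    exact Finset.prod_pos fun p hp => one_sub_inv_pos' (hmem p hp).1
  have hMMw' : MM w = MM v * Q⁻¹ := by rw [hMMw, hQ, Finset.prod_inv_distrib]
  obtain ⟨R, hR⟩ : ∃ R, R = ∏ p ∈ (Finset.Ioc v w).filter Nat.Prime, (1 - 1 / ((p : ℝ) - 1) ^ 2) := ⟨_, rfl⟩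
  obtain ⟨P, hP⟩ : ∃ P, P = ∏ p ∈ (Finset.Ioc v w).filter Nat.Prime, (1 - 2 / (p : ℝ)) := ⟨_, rfl⟩
  have hPQR : P = Q ^ 2 * R := by
    rw [hP, hQ, hR, ← Finset.prod_pow, ← Finset.prod_mul_distrib]
    refine Finset.prod_congr rfl fun p hp => ?_
    have h5 := (hmem p hp).2.2.2
    have h1 : (p : ℝ) - 1 ≠ 0 := by linarith
    have h2 : (p : ℝ) ≠ 0 := by linarith
    field_simp
    ring
  have hvn : ∀ n : ℕ, v ≤ n → (5 : ℝ) ≤ n := fun n hn => hv'.trans (by exact_mod_cast hn)
  -- first telescoping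
  have t1 := prod_lower v w hvw (fun n => 1 / ((n : ℝ) - 1) ^ 2) (fun n => 1 / ((n : ℝ) - 1))
    (fun n hn => by positivity)
    (fun n hn => by
      have h := hvn n hn
      push_cast
      rw [add_sub_cancel_right, div_le_one (by positivity)]
      nlinarith)
    (fun n hn => by
      have h := hvn n hn
      exact div_nonneg zero_le_one (by linarith))
    (fun n hn => by
      have h := hvn n hn
      push_cast
      rw [add_sub_cancel_right, div_sub_div _ _ (by linarith) (by linarith),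
        div_le_div_iff₀ (by positivity) (mul_pos (by linarith) (by linarith))]
      nlinarith)
  rw [← hR] at t1 ⊢
  have hvm : 1 / ((v : ℝ) - 1) ≤ 2 / v := by
    rw [div_le_div_iff₀ (by linarith) (by linarith)]
    linarith
  have hw5 : 0 ≤ 1 / ((w : ℝ) - 1) := div_nonneg zero_le_one (by linarith [hvn w hvw])
  have hR1 : 1 - 2 / (v : ℝ) ≤ R := by linarith [t1.1]
  -- second telescoping
  have t2 := prod_lower v w hvw (fun n => 2 / (((n : ℝ) - 1) * ((n : ℝ) - 2)))
    (fun n => 2 / ((n : ℝ) - 1))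
    (fun n hn => by
      have h := hvn n hn
      push_cast
      refine div_nonneg (by norm_num) (mul_nonneg (by linarith) (by linarith)))
    (fun n hn => by
      have h := hvn n hn
      push_cast
      rw [div_le_one (mul_pos (by linarith) (by linarith))]
      nlinarith)
    (fun n hn => by
      have h := hvn n hn
      exact div_nonneg (by norm_num) (by linarith))
    (fun n hn => by
      have h := hvn n hn
      push_cast
      have h1 : (n : ℝ) + 1 - 1 = n := by ring
      have h2 : (n : ℝ) + 1 - 2 = n - 1 := by ring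
      rw [h1, h2, div_sub_div _ _ (by linarith) (by linarith)]
      apply le_of_eq
      rw [div_eq_div_iff (mul_pos (by linarith) (by linarith)).ne' (mul_pos (by linarith) (by linarith)).ne']
      ring)
  obtain ⟨X, hX⟩ : ∃ X, X = ∏ p ∈ (Finset.Ioc v w).filter Nat.Prime,
    (1 - 2 / (((p : ℝ) - 1) * ((p : ℝ) - 2))) := ⟨_, rfl⟩
  rw [← hX] at t2
  have hP0 : 0 ≤ P := by
    rw [hP]
    refine Finset.prod_nonneg fun p hp => ?_
    have h5 := (hmem p hp).2.2.2
    rw [sub_nonneg, div_le_one (by linarith)]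
    linarith
  have hTX : ∏ p ∈ (Finset.Ioc v w).filter Nat.Prime, (1 - 2 / ((p : ℝ) - 1)) = P * X := by
    rw [hP, hX, ← Finset.prod_mul_distrib]
    refine Finset.prod_congr rfl fun p hp => ?_
    have h5 := (hmem p hp).2.2.2
    have h1 : (p : ℝ) - 1 ≠ 0 := by linarith
    have h2 : (p : ℝ) ≠ 0 := by linarith
    have h3 : (p : ℝ) - 2 ≠ 0 := by linarith
    field_simp
    ring
  rw [hTX, ← hP]
  have hv4 : 2 / ((v : ℝ) - 1) ≤ 4 / v := by
    rw [div_le_div_iff₀ (by linarith) (by linarith)]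
    linarith
  have hw52 : 0 ≤ 2 / ((w : ℝ) - 1) := div_nonneg (by norm_num) (by linarith [hvn w hvw])
  refine ⟨?_, ⟨hR1, t1.2.1⟩, ⟨?_, ?_⟩, ?_⟩
  · intro t ht
    have hPV : PV w t = (MM v)⁻¹ * P := by
      unfold PV
      rw [split v w hvw]
      congr 1
      · unfold MM
        rw [Finset.prod_inv_distrib, inv_inv]
        refine Finset.prod_congr rfl fun p hp => ?_
        rw [Finset.mem_filter, Finset.mem_Icc] at hp
        have h1 : p ∣ t := (ht p hp.2 (hp.1.2.trans hvw)).2 hp.1.2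
        rw [nu_eq hp.2, if_pos (Dvd.dvd.mul_left h1 2), one_div]
      · rw [hP]
        refine Finset.prod_congr rfl fun p hp => ?_
        obtain ⟨h1, h2, h3, h4⟩ := hmem p hp
        have h5 : ¬ p ∣ t := fun h => absurd ((ht p h1 h3).1 h) (by omega)
        have h6 : ¬ p ∣ 2 * t := by
          intro h
          rcases (h1.dvd_mul).1 h with h | h
          · have := Nat.le_of_dvd (by norm_num) h
            omega
          · exact h5 h
        rw [nu_eq h1, if_neg h6]
    refine ⟨hPV, ?_⟩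
    unfold SS
    rw [hPV, hMMw', hPQR]
    field_simp
  · nlinarith [t2.2.1]
  · rw [mul_comm]
    apply mul_le_mul_of_nonneg_left _ hP0
    linarith [t2.1]
  · have h1 : MM v / MM w = Q := by
      rw [hMMw']
      field_simp
    rw [h1, hPQR, mul_comm]
    exact mul_le_mul_of_nonneg_left hR1 (by positivity)

end Pool.Agent.H95.GX.PVT
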