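import Pool.Agent.H13.GG.FIN
import Pool.Agent.H95.GX.AVG
import Pool.Agent.H95.GX.GRD
import Pool.Agent.H95.GX.PVT
import Pool.Agent.H95.GX.LIM
import Pool.Agent.H95.GX.EXT
import Pool.Agent.H95.GG.T.ROU
import Pool.Agent.H95.GG.T.POSG

/-!
# Project GX: `λ⁻ < 1 < λ⁺` for Goldbach's problem in Granville's model
-/

set_option autoImplicit false

open Filter
open scoped Topology ENNReal

namespace Pool.Agent.H95.GX

open Pool.Agent.H13.GG (lo3 hi3 slg shg bddA bddB)

lemma ext' : S_EXT :=
  EXT.main (GRD.main AVG.main) PVT.main (LIM.main Pool.Agent.H95.GG.T.ROU.main Pool.Agent.H50.BF.mert)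
    Pool.Agent.H50.BF.mert bddB bddA

/-- the lower extremal density is smaller than `1` -/
theorem slg_lt_one : slg < 1 := by
  obtain ⟨c, hc, h⟩ := ext'
  have h1 : slg ≤ ENNReal.ofReal (1 - c) := by
    refine liminf_le_of_frequently_le (Eventually.frequently ?_) (by isBoundedDefault)
    filter_upwards [h] with w hw
    exact ENNReal.ofReal_le_ofReal hw.1
  exact h1.trans_lt (ENNReal.ofReal_lt_one.2 (by linarith))

/-- the upper extremal density is larger than `1` -/
theorem one_lt_shg : 1 < shg := by
  obtain ⟨c, hc, h⟩ := ext'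
  have h1 : ENNReal.ofReal (1 + c) ≤ shg := by
    refine le_limsup_of_frequently_le (Eventually.frequently ?_) (by isBoundedDefault)
    filter_upwards [h] with w hw
    exact ENNReal.ofReal_le_ofReal hw.2
  refine lt_of_lt_of_le ?_ h1
  rw [← ENNReal.ofReal_one]
  exact (ENNReal.ofReal_lt_ofReal_iff (by linarith)).2 (by linarith)

end Pool.Agent.H95.GX
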