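import Pool.Agent.H13.GG.Stm
import Pool.Agent.H95.GG.Stm

/-!
# Project GX: `λ⁻ < 1 < λ⁺` for Goldbach's problem in Granville's model (a Maier phenomenon)

`sg v h a U`, `EE`, `PV`, `SS`, `UW`, `lo3`, `hi3` as in project GG of helper13; `ru v x` is the number of the
`1 ≤ n ≤ x` without prime factor `≤ v`. We take `t` divisible by the primes `p ≤ v = ⌊w^(3/u)⌋` and not by
the primes `v < p ≤ w`, whose classes are chosen by averaging. The density is then about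
`ru v U * MM v / U → e^γ ω(u)`, Buchstab's function, which oscillates around `e^(-γ)`.

File `Pool/Agent/H95/GX/X.lean`, `import Pool.Agent.H95.GX.Stm`, namespace `Pool.Agent.H95.GX.X`, theorem
`main : (used stubs) → S_X`. No double quotes in the files.
-/

set_option autoImplicit false

open Filter
open scoped Topology

namespace Pool.Agent.H95.GX

open Pool.Agent.H50.BF (MM S_MERT)
open Pool.Agent.H13.GG (Bd sg nu PV SS EE UW lo3 hi3)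
open Pool.Agent.H95.GG (ru S_ROU)
open Pool.Agent.R529.BU (om)

open Classical in
/-- GX-AVG (60 lines). Averaging over the nonzero classes modulo `p`.
Proof. For `j` with `¬ p ∣ j` exactly two of the `a` with `1 ≤ a < p` have `Bd a p j` (`p ∣ a + j` or
`j % p = a % p`): `a = j % p` and `a = p - j % p`, different since `p` is odd; for `p ∣ j` none. Double
counting: `∑_a #{j ∈ S, Bd a p j} = 2 #{j ∈ S, ¬ p ∣ j}`. So some `a` has at least, and some `a` at most, the average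
`2 / (p - 1) * #{j ∈ S, ¬ p ∣ j}` (`Finset.exists_le_of_sum_le`, ...), and `#{j ∈ S, ¬ p ∣ j} ≤ S.card`. -/
def S_AVG : Prop := ∀ p : ℕ, p.Prime → 3 ≤ p → ∀ S : Finset ℕ,
  (∃ a : ℕ, 1 ≤ a ∧ a < p ∧ ((S.filter (fun j => ¬ Bd a p j)).card : ℝ) ≤
    S.card - 2 / ((p : ℝ) - 1) * (S.filter (fun j => ¬ p ∣ j)).card) ∧
  (∃ a : ℕ, 1 ≤ a ∧ a < p ∧ (S.card : ℝ) * (1 - 2 / ((p : ℝ) - 1)) ≤
    ((S.filter (fun j => ¬ Bd a p j)).card : ℝ))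

/-- GX-GRD (150 lines; uses AVG, and `Pool.Agent.H95.GG.S_POSG`, proved: `Pool.Agent.H95.GG.T.POSG.main`).
Proof. Start with `S₀ = {j ∈ Icc 1 U, Rou v j}`, of cardinality `ru v U`. Induction over the primes
`p ∈ (v, w]` (or over `w`, from `v` on) with AVG: in the first case the number of the remaining `j` is at most
`#S (1 - 2/(p-1)) + 2/(p-1) #{j ≤ U, p ∣ j} ≤ #S (1 - 2/(p-1)) + 2 U / ((p-1) p)`, the factors are in `[0, 1]`, and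
`∑_{n > v} 2 U / ((n-1) n) ≤ 2 U / v`; in the second case it is at least `#S (1 - 2/(p-1))`. This gives classes
`a p`; put `a p = 0` for `p ≤ v`. By S_POSG with `J = 1`, `y = Y = 0`, `Z = primorial w` there is `t` with `t % p = a p % p` for all
primes `p ≤ w`. `Bd t p j ↔ Bd (a p) p j` and, for `p ≤ v`, `Bd t p j ↔ p ∣ j`. `sg w t 0 U` counts the `j < U` such that
`j + 1` avoids all `Bd t p`. -/
def S_GRD : Prop := ∀ v w U : ℕ, 5 ≤ v → v ≤ w →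
  (∃ t : ℕ, (∀ p : ℕ, p.Prime → p ≤ w → (p ∣ t ↔ p ≤ v)) ∧
    (sg w t 0 U : ℝ) ≤
      ru v U * ∏ p ∈ (Finset.Ioc v w).filter Nat.Prime, (1 - 2 / ((p : ℝ) - 1)) + 4 * U / v) ∧
  (∃ t : ℕ, (∀ p : ℕ, p.Prime → p ≤ w → (p ∣ t ↔ p ≤ v)) ∧
    ru v U * ∏ p ∈ (Finset.Ioc v w).filter Nat.Prime, (1 - 2 / ((p : ℝ) - 1)) ≤ (sg w t 0 U : ℝ))

/-- GX-PVT (100 lines; `Pool.Agent.H13.GG.nu'` in `NU.lean` and `nu_eq` in `RES.lean` of H13/GG: `nu h p = 1` if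
`p ∣ 2 h`, else `2`). The products. `PV w t = ∏_{p ≤ v} (1 - 1/p) ∏_{v < p ≤ w} (1 - 2/p)`, `SS = PV * MM²`,
`(1 - 2/p) (1 - 1/p)⁻² = 1 - 1/(p-1)²`, whose product over `p > v` is in `[1 - 2/v, 1]` (`∏ (1 - 1/(n-1)²) ≥ 1 - ∑ 1/(n-1)²`).
Third: `(1 - 2/(p-1)) / (1 - 2/p) = 1 - 2/((p-1)(p-2)) ≤ 1`, and the product is at least `1 - ∑_{n > v} 2/((n-1)(n-2)) ≥ 1 - 4/v`.
Last: `∏_{v < p ≤ w} (1 - 2/p) = (MM v / MM w)² ∏ (1 - 1/(p-1)²)`. -/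
def S_PVT : Prop := ∀ v w : ℕ, 5 ≤ v → v ≤ w →
  (∀ t : ℕ, (∀ p : ℕ, p.Prime → p ≤ w → (p ∣ t ↔ p ≤ v)) →
    PV w t = (MM v)⁻¹ * ∏ p ∈ (Finset.Ioc v w).filter Nat.Prime, (1 - 2 / (p : ℝ)) ∧
    SS w t = MM v * ∏ p ∈ (Finset.Ioc v w).filter Nat.Prime, (1 - 1 / ((p : ℝ) - 1) ^ 2)) ∧
  (1 - 2 / (v : ℝ) ≤ ∏ p ∈ (Finset.Ioc v w).filter Nat.Prime, (1 - 1 / ((p : ℝ) - 1) ^ 2) ∧
    ∏ p ∈ (Finset.Ioc v w).filter Nat.Prime, (1 - 1 / ((p : ℝ) - 1) ^ 2) ≤ 1) ∧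
  (∏ p ∈ (Finset.Ioc v w).filter Nat.Prime, (1 - 2 / ((p : ℝ) - 1)) ≤
      ∏ p ∈ (Finset.Ioc v w).filter Nat.Prime, (1 - 2 / (p : ℝ)) ∧
    (1 - 4 / (v : ℝ)) * ∏ p ∈ (Finset.Ioc v w).filter Nat.Prime, (1 - 2 / (p : ℝ)) ≤
      ∏ p ∈ (Finset.Ioc v w).filter Nat.Prime, (1 - 2 / ((p : ℝ) - 1))) ∧
  (1 - 2 / (v : ℝ)) * (MM v / MM w) ^ 2 ≤
    ∏ p ∈ (Finset.Ioc v w).filter Nat.Prime, (1 - 2 / (p : ℝ))

/-- GX-LIM (150 lines; uses `S_ROU`, proved: `Pool.Agent.H95.GG.T.ROU.main`, and `BF.S_MERT`). Buchstab's function with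
an approximate exponent.
Proof. `v = ⌊w^(3/u)⌋`, `U` is between `w³ / (2 MM v)` and `3 w³ / MM v`, `MM v ≤ C log w`. For large `w`
`⌊U^(1/u₂)⌋ ≤ v ≤ ⌊U^(1/u₁)⌋` (`U ≤ 3 w³`, `U ≥ w^(3 u₁ / u)`). `ru` is antitone and `MM` monotone in the first argument, so
`ru v U * MM v ≤ ru ⌊U^(1/u₂)⌋ U * MM ⌊U^(1/u₂)⌋ * (MM ⌊U^(1/u₁)⌋ / MM ⌊U^(1/u₂)⌋)`, the ratio tends to `u₂ / u₁` by MERT, and
S_ROU; the same for the lower bound. `U → ∞` uniformly: state the limits for `U → ∞` first. -/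
def S_LIM : Prop := ∀ u₁ u u₂ ε : ℝ, 3 < u₁ → u₁ < u → u < u₂ → 0 < ε → ∀ᶠ w : ℕ in atTop, ∀ U : ℕ,
  (w : ℝ) ^ 3 / (2 * MM ⌊(w : ℝ) ^ (3 / u)⌋₊) ≤ U → (U : ℝ) ≤ 3 * (w : ℝ) ^ 3 / MM ⌊(w : ℝ) ^ (3 / u)⌋₊ →
    (ru ⌊(w : ℝ) ^ (3 / u)⌋₊ U : ℝ) * MM ⌊(w : ℝ) ^ (3 / u)⌋₊ / U ≤
      Real.exp Real.eulerMascheroniConstant * om u₂ * (u₂ / u₁) + ε ∧
    Real.exp Real.eulerMascheroniConstant * om u₁ * (u₁ / u₂) - ε ≤
      (ru ⌊(w : ℝ) ^ (3 / u)⌋₊ U : ℝ) * MM ⌊(w : ℝ) ^ (3 / u)⌋₊ / U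

/-- GX-EXT (helper95; uses GRD, PVT, LIM). -/
def S_EXT : Prop := ∃ c : ℝ, 0 < c ∧ ∀ᶠ w : ℕ in atTop, lo3 w ≤ 1 - c ∧ 1 + c ≤ hi3 w

end Pool.Agent.H95.GX
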